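import Pool.Agent.R49.KR.Par
import Pool.Agent.R49.KR.Low2

set_option autoImplicit false

namespace Pool.Agent.Results.MP_7ea12b_co.OrderOfGrowth

/-- Every nonempty vertex set contains a vertex with at most `d` neighbours in it. -/
def Degenerate {n : ℕ} (d : ℕ) (G : SimpleGraph (Fin n)) : Prop :=
  ∀ S : Finset (Fin n), S.Nonempty → ∃ v ∈ S, ({u ∈ (S : Set (Fin n)) | G.Adj v u}).ncard ≤ d

/-- `w` is a fractional colouring: a nonnegative weighting supported on independent sets such that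
every vertex is covered with total weight at least one. -/
def IsFracColouring {n : ℕ} (G : SimpleGraph (Fin n)) (w : Finset (Fin n) → ℝ) : Prop :=
  (∀ I, 0 ≤ w I) ∧ (∀ I, w I ≠ 0 → G.IsIndepSet (↑I : Set (Fin n))) ∧
    ∀ v : Fin n, 1 ≤ ∑ I ∈ Finset.univ.filter (fun I : Finset (Fin n) => v ∈ I), w I

/-- The fractional chromatic number: the least total weight of a fractional colouring. -/
noncomputable def chiF {n : ℕ} (G : SimpleGraph (Fin n)) : ℝ :=
  sInf {t | ∃ w : Finset (Fin n) → ℝ, IsFracColouring G w ∧ t = ∑ I, w I}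

/-- The values of the fractional chromatic number on `d`-degenerate `K_r`-free graphs. -/
def values (r d : ℕ) : Set ℝ :=
  {t | ∃ (n : ℕ) (G : SimpleGraph (Fin n)), Degenerate d G ∧ G.CliqueFree r ∧ t = chiF G}

/-- The function `g_r(d)`: the supremum of the fractional chromatic numbers of the `d`-degenerate
`K_r`-free graphs. -/
noncomputable def g (r d : ℕ) : ℝ := sSup (values r d)

/-- The order of growth of `g_r(d)` for every fixed `r ≥ 3`: it is `d / log^(r-2) d` up to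
constant factors, where `log^(k)` is the `k`-fold iterated logarithm. -/
theorem result : ∀ r : ℕ, 3 ≤ r → ∃ c K : ℝ, 0 < c ∧ 0 < K ∧ ∃ d₀ : ℕ, ∀ d : ℕ, d₀ ≤ d →
    1 ≤ Real.log^[r - 2] (d : ℝ) ∧ BddAbove (values r d) ∧
      c * (d : ℝ) / Real.log^[r - 2] (d : ℝ) ≤ g r d ∧
      g r d ≤ K * (d : ℝ) / Real.log^[r - 2] (d : ℝ) := by
  classical
  intro r hr
  obtain ⟨K, hK, d₁, h⟩ := Pool.Agent.R49.KR.upper r hr
  obtain ⟨c, hc, d₂, hlow⟩ := Pool.Agent.R49.KR.Low.lower r hr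
  refine ⟨c, K, hc, hK, max d₁ d₂, ?_⟩
  intro d hd
  obtain ⟨h1, h2⟩ := h d ((le_max_left _ _).trans hd)
  have hbelow : ∀ {n : ℕ} (G : SimpleGraph (Fin n)),
      BddBelow {t | ∃ w : Finset (Fin n) → ℝ, IsFracColouring G w ∧ t = ∑ I, w I} := by
    intro n G
    refine ⟨0, ?_⟩
    rintro _ ⟨w', hw', rfl⟩
    exact Finset.sum_nonneg fun I _ => hw'.1 I
  have key : ∀ t ∈ values r d, t ≤ K * (d : ℝ) / Real.log^[r - 2] (d : ℝ) := by
    rintro t ⟨n, G, hdeg, hfree, rfl⟩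
    obtain ⟨w, w0, w1, w2, w3⟩ := h2 n G hfree (by
      intro S hS
      obtain ⟨v, hv, hvd⟩ := hdeg S hS
      refine ⟨v, hv, ?_⟩
      have e : ((S.filter (fun u => G.Adj v u) : Finset (Fin n)) : Set (Fin n)) =
          {u ∈ (S : Set (Fin n)) | G.Adj v u} := by
        ext u
        simp
      rw [← e, Set.ncard_coe_finset] at hvd
      exact hvd)
    exact le_trans (csInf_le (hbelow G) ⟨w, ⟨w0, w1, w2⟩, rfl⟩) w3
  obtain ⟨n, G, g1, g2, g3⟩ := hlow d ((le_max_right _ _).trans hd)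
  have hdegG : Degenerate d G := by
    intro S hS
    obtain ⟨v, hv, hvd⟩ := g2 S hS
    refine ⟨v, hv, ?_⟩
    have e : ((S.filter (fun u => G.Adj v u) : Finset (Fin n)) : Set (Fin n)) =
        {u ∈ (S : Set (Fin n)) | G.Adj v u} := by
      ext u
      simp
    rw [← e, Set.ncard_coe_finset]
    exact hvd
  have hmem : chiF G ∈ values r d := ⟨n, G, hdegG, g1, rfl⟩
  obtain ⟨w, w0, w1, w2, _⟩ := h2 n G g1 g2
  refine ⟨h1, ⟨_, key⟩, ?_, csSup_le ⟨_, hmem⟩ key⟩
  refine le_trans ?_ (le_csSup ⟨_, key⟩ hmem)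
  have hne : {t | ∃ w : Finset (Fin n) → ℝ, IsFracColouring G w ∧ t = ∑ I, w I}.Nonempty :=
    ⟨_, w, ⟨w0, w1, w2⟩, rfl⟩
  apply le_csInf hne
  rintro _ ⟨w', hw', rfl⟩
  exact g3 w' hw'.1 hw'.2.1 hw'.2.2

end Pool.Agent.Results.MP_7ea12b_co.OrderOfGrowth
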